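import Pool.Agent.KS6_94.UM.B
import Pool.Graph.R_pool_sql_team_seeded_3997aac3.Results.MP_f1e800_an.Umbel

/-!
# The `p`-umbel inequality for step-two groups with finite-dimensional centre over Banach spaces
-/

set_option autoImplicit false

namespace Pool.Agent.Results.MP_f1e800_an.StepTwoGroups

open Set Filter Pool.Agent.KS6_94.UM
open scoped ENNReal NNReal Topology

universe u v

/-- The `p`-umbel inequality with constant `K` for a function `d : M × M → [0, ∞)`. -/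
def UmbelIneq {M : Type*} (d : M → M → ℝ≥0) (p K : ℝ) : Prop :=
  ∀ (w z : M) (x : ℕ → M),
    ENNReal.ofReal (1 / 2 ^ p) * (⨅ n, (d w (x n) : ℝ≥0∞) ^ p) +
      ENNReal.ofReal (1 / K ^ p) *
        (⨅ i, liminf (fun j => (d (x i) (x j) : ℝ≥0∞) ^ p) atTop) ≤
    ENNReal.ofReal (1 / 2) * (d w z : ℝ≥0∞) ^ p +
      ENNReal.ofReal (1 / 2) * (⨆ n, (d (x n) z : ℝ≥0∞) ^ p)

/-- The modulus of Rolewicz's property `(β)`: one minus the supremum of the numbers
`inf_n ‖(x + x_n) / 2‖` over all `x` and all `t`-separated sequences `(x_n)` in the unit ball. -/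
noncomputable def betaMod (X : Type*) [NormedAddCommGroup X] [NormedSpace ℝ X] (t : ℝ) : ℝ :=
  1 - sSup {r : ℝ | ∃ (x : X) (xs : ℕ → X), ‖x‖ ≤ 1 ∧ (∀ n, ‖xs n‖ ≤ 1) ∧
    (∀ m n, m ≠ n → t ≤ ‖xs m - xs n‖) ∧ r = ⨅ n, ‖(1 / 2 : ℝ) • (x + xs n)‖}

/-- Property `(β_p)`. -/
def HasBetaP (X : Type*) [NormedAddCommGroup X] [NormedSpace ℝ X] (p : ℝ) : Prop :=
  ∃ c : ℝ, 0 < c ∧ ∀ t : ℝ, 0 < t → t ≤ 2 → c * t ^ p ≤ betaMod X t

/-- `ω` is antisymmetric. -/
def Antisymmetric {X : Type u} {Z : Type v} [NormedAddCommGroup X] [NormedSpace ℝ X]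
    [NormedAddCommGroup Z] [NormedSpace ℝ Z] (ω : X →L[ℝ] X →L[ℝ] Z) : Prop :=
  ∀ x y, ap ω x y = -ap ω y x

/-- The values of `ω` span `Z`. -/
def Spans {X : Type u} {Z : Type v} [NormedAddCommGroup X] [NormedSpace ℝ X]
    [NormedAddCommGroup Z] [NormedSpace ℝ Z] (ω : X →L[ℝ] X →L[ℝ] Z) : Prop :=
  Submodule.span ℝ {z : Z | ∃ x y, ap ω x y = z} = ⊤

/-- `ω` is not zero. -/
def Nonzero {X : Type u} {Z : Type v} [NormedAddCommGroup X] [NormedSpace ℝ X]
    [NormedAddCommGroup Z] [NormedSpace ℝ Z] (ω : X →L[ℝ] X →L[ℝ] Z) : Prop :=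
  ∃ x y, ap ω x y ≠ 0

/-- The space `X × Z` with the Carnot-Carathéodory distance of `ω` admits an equivalent
quasi-metric with the `p`-umbel inequality. -/
def AdmitsUmbel {X : Type u} {Z : Type v} [NormedAddCommGroup X] [NormedSpace ℝ X]
    [NormedAddCommGroup Z] [NormedSpace ℝ Z] (ω : X →L[ℝ] X →L[ℝ] Z) (p : ℝ) : Prop :=
  ∃ d : X × Z → X × Z → ℝ≥0, (∀ a b, d a b = d b a) ∧
    (∃ c C : ℝ≥0, 0 < c ∧ c ≤ C ∧ ∀ a b, (c : ℝ≥0∞) * dcc ω a b ≤ d a b ∧
      (d a b : ℝ≥0∞) ≤ C * dcc ω a b) ∧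
    ∃ K : ℝ, 0 < K ∧ UmbelIneq d p K

lemma zero_of_anti {Z : Type*} [NormedAddCommGroup Z] [NormedSpace ℝ Z] {a : Z} (h : a = -a) :
    a = 0 := by
  have h2 : (2 : ℝ) • a = 0 := by
    rw [two_smul]
    nth_rewrite 1 [h]
    exact neg_add_cancel a
  exact (smul_eq_zero.1 h2).resolve_left two_ne_zero

theorem admits {X : Type u} {Z : Type v} [NormedAddCommGroup X] [NormedSpace ℝ X]
    [NormedAddCommGroup Z] [NormedSpace ℝ Z] [FiniteDimensional ℝ Z]
    {p : ℝ} (hp : 1 < p) (hX : HasBetaP X p)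
    (ω : X →L[ℝ] X →L[ℝ] Z) (hanti : ∀ x y, ω x y = -ω y x)
    (hspan : Submodule.span ℝ {z : Z | ∃ x y, ω x y = z} = ⊤) : AdmitsUmbel ω p := by
  have hz : ∀ x, ω x x = 0 := fun x => zero_of_anti (hanti x x)
  obtain ⟨c, hc, hβ⟩ := hX
  obtain ⟨κ, hκ, hcore⟩ := core (X := X) Z hp hc hβ
  obtain ⟨C, hC, hdcc⟩ := dcc_le hz hspan
  set lam : ℝ := 1 / (3 * (1 + ‖ω‖)) with hlam
  have hn := norm_nonneg ω
  have hlam0 : 0 < lam := by positivity
  have hlam1 : lam ≤ 1 := by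
    rw [hlam, div_le_one (by positivity)]
    linarith
  have hlamω : lam ^ 2 * ‖ω‖ ≤ 1 / 8 := by
    rw [hlam, div_pow, one_pow, div_mul_eq_mul_div, one_mul, div_le_iff₀ (by positivity)]
    nlinarith [sq_nonneg (‖ω‖ - 1)]
  have hd0 : ∀ a b, 0 ≤ hd ω lam a b := hd_nonneg ω lam
  refine ⟨fun a b => ⟨hd ω lam a b, hd0 a b⟩, fun a b => ?_, ?_, ?_⟩
  · apply NNReal.eq
    exact hd_symm hz lam a b
  · -- equivalence with `dcc`
    refine ⟨min 1 (lam / C).toNNReal, 1, lt_min one_pos (Real.toNNReal_pos.mpr (by positivity)),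
      min_le_left _ _, fun a b => ⟨?_, ?_⟩⟩
    · have h1 := hdcc a b
      have h2 : max ‖b.1 - a.1‖ (Real.sqrt ‖b.2 - a.2 - ω a.1 b.1‖) ≤ hd ω lam a b / lam := by
        rw [le_div_iff₀ hlam0]
        have e1 : ‖b.1 - a.1‖ ≤ hd ω lam a b := by
          rw [norm_sub_rev]; exact le_max_left _ _
        have e2 : lam * Real.sqrt ‖b.2 - a.2 - ω a.1 b.1‖ ≤ hd ω lam a b := by
          have : ‖b.2 - a.2 - ω a.1 b.1‖ = ‖a.2 - b.2 + ω a.1 b.1‖ := by
            rw [← norm_neg]; congr 1; abel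
          rw [this]; exact le_max_right _ _
        rcases le_total ‖b.1 - a.1‖ (Real.sqrt ‖b.2 - a.2 - ω a.1 b.1‖) with h | h
        · rw [max_eq_right h, mul_comm]; exact e2
        · rw [max_eq_left h]
          calc ‖b.1 - a.1‖ * lam ≤ ‖b.1 - a.1‖ * 1 :=
                mul_le_mul_of_nonneg_left hlam1 (norm_nonneg _)
            _ ≤ _ := by rw [mul_one]; exact e1
      have h3 : dcc ω a b ≤ ENNReal.ofReal (C * (hd ω lam a b / lam)) :=
        h1.trans (ENNReal.ofReal_le_ofReal (mul_le_mul_of_nonneg_left h2 hC.le))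
      have h4 : ((min 1 (lam / C).toNNReal : ℝ≥0) : ℝ≥0∞) ≤ ENNReal.ofReal (lam / C) := by
        rw [ENNReal.ofReal]
        exact_mod_cast min_le_right _ _
      calc ((min 1 (lam / C).toNNReal : ℝ≥0) : ℝ≥0∞) * dcc ω a b
          ≤ ENNReal.ofReal (lam / C) * ENNReal.ofReal (C * (hd ω lam a b / lam)) :=
            mul_le_mul' h4 h3
        _ = ENNReal.ofReal (hd ω lam a b) := by
            rw [← ENNReal.ofReal_mul (by positivity)]
            congr 1
            field_simp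
        _ = _ := ENNReal.ofReal_eq_coe_nnreal (hd0 a b)
    · refine (ENNReal.ofReal_eq_coe_nnreal (hd0 a b)).symm.le.trans ?_
      rw [ENNReal.coe_one, one_mul]
      unfold dcc
      refine le_iInf fun γ => le_iInf fun z => le_iInf fun hH => le_iInf fun h0 => le_iInf fun h1 => ?_
      obtain ⟨hfin, hn1, hn2⟩ := displacement hz hH
      rw [← ENNReal.ofReal_toReal hfin]
      apply ENNReal.ofReal_le_ofReal
      set L := (eVariationOn γ (Icc 0 1)).toReal with hL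
      have hL0 : 0 ≤ L := ENNReal.toReal_nonneg
      rw [← h0, ← h1]
      unfold hd
      refine max_le ?_ ?_
      · rw [norm_sub_rev]; exact hn1
      · simp only
        apply le_of_sq_le_sq _ hL0
        rw [mul_pow, Real.sq_sqrt (norm_nonneg _)]
        have e : ‖z 0 - z 1 + ω (γ 0) (γ 1)‖ = ‖z 1 - z 0 - ω (γ 0) (γ 1)‖ := by
          rw [← norm_neg]; congr 1; abel
        rw [e]
        have h5 := mul_le_mul_of_nonneg_left hn2 (sq_nonneg lam)
        have h6 : (lam ^ 2 * ‖ω‖) * L ^ 2 ≤ 1 / 8 * L ^ 2 :=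
          mul_le_mul_of_nonneg_right hlamω (sq_nonneg L)
        nlinarith [sq_nonneg L]
  · refine ⟨(1 / κ) ^ (1 / p), by positivity, Umbel.umbel_of_core hp hκ ?_⟩
    intro w z x I T B hI0 hT0 hI hT hB
    exact hcore ω hz lam hlam0 hlamω w z x I T B hI0 hT0 hI hT hB


/-- If the values of `ω` do not span `Z`, some points are at infinite distance. -/
theorem spans {X : Type u} {Z : Type v} [NormedAddCommGroup X] [NormedSpace ℝ X]
    [NormedAddCommGroup Z] [NormedSpace ℝ Z] [FiniteDimensional ℝ Z] {p : ℝ}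
    (ω : X →L[ℝ] X →L[ℝ] Z) (hanti : ∀ x y, ω x y = -ω y x) (h : AdmitsUmbel ω p) :
    Submodule.span ℝ {z : Z | ∃ x y, ω x y = z} = ⊤ := by
  have hz : ∀ x, ω x x = 0 := fun x => zero_of_anti (hanti x x)
  by_contra hne
  obtain ⟨f, hf0, hf⟩ := Submodule.exists_le_ker_of_lt_top _ (lt_top_iff_ne_top.2 hne)
  obtain ⟨z0, hz0⟩ : ∃ z0, f z0 ≠ 0 := by
    by_contra hcon
    push Not at hcon
    exact hf0 (LinearMap.ext hcon)
  obtain ⟨d, -, ⟨c, C, hc, -, hd⟩, -⟩ := h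
  have htop : dcc ω ((0 : X), (0 : Z)) (0, z0) = ∞ := by
    unfold dcc
    simp only [iInf_eq_top]
    intro γ z hH h0 h1
    exfalso
    let F : Z →L[ℝ] ℝ := LinearMap.toContinuousLinearMap f
    let ωf : X →L[ℝ] X →L[ℝ] ℝ := (ContinuousLinearMap.compL ℝ X Z ℝ F).comp ω
    have hωf : ωf = 0 := by
      ext x y
      show f (ω x y) = 0
      exact hf (Submodule.subset_span ⟨x, y, rfl⟩)
    have hH' : Q95.Heis.Horizontal ωf γ (fun t => F (z t)) := by
      refine ⟨hH.lip_fst, ?_, ?_⟩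
      · obtain ⟨D, hD⟩ := hH.lip_snd
        exact ⟨‖F‖₊ * D, F.lipschitz.comp_lipschitzOnWith hD⟩
      · filter_upwards [hH.deriv] with t ht hto
        obtain ⟨k1, k2⟩ := ht hto
        exact ⟨k1, F.hasFDerivAt.comp_hasDerivAt t k2⟩
    have hh := (Q95.Heis.displacement (fun x => by rw [hωf]; rfl) hH').2.2
    have hn : ‖ωf‖ = 0 := by rw [hωf]; exact ContinuousLinearMap.opNorm_zero
    have hv : ωf (γ 0) (γ 1) = 0 := by rw [hωf]; rfl
    rw [hn, hv, zero_mul] at hh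
    have e0 : z 0 = 0 := congrArg Prod.snd h0
    have e1 : z 1 = z0 := congrArg Prod.snd h1
    simp only [e0, e1, map_zero, sub_zero] at hh
    exact hz0 (abs_nonpos_iff.1 hh)
  have := (hd ((0 : X), (0 : Z)) (0, z0)).1
  rw [htop, ENNReal.mul_top (by exact_mod_cast hc.ne')] at this
  exact absurd (top_le_iff.1 this) ENNReal.coe_ne_top

/-- **Main theorem.** Let `1 < p` and let `X` be a real Banach space with property `(β_p)`.
(1) Let `Z` be a finite-dimensional real normed space and `ω : X × X → Z` bounded, bilinear and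
antisymmetric. The space `X × Z` with the Carnot-Carathéodory distance of the step-two group
defined by `ω` admits an equivalent quasi-metric with the `p`-umbel inequality if and only if the
values of `ω` span `Z`.
(2) In particular this holds for every nonzero antisymmetric bounded bilinear form `ω` on `X`
(`Z = ℝ`, the Heisenberg groups `H(ω)`). -/
theorem result (X : Type u) [NormedAddCommGroup X] [NormedSpace ℝ X] [CompleteSpace X]
    (p : ℝ) (hp : 1 < p) (hX : HasBetaP X p) :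
    (∀ (Z : Type v) [NormedAddCommGroup Z] [NormedSpace ℝ Z] [FiniteDimensional ℝ Z]
      (ω : X →L[ℝ] X →L[ℝ] Z), Antisymmetric ω → (AdmitsUmbel ω p ↔ Spans ω)) ∧
    (∀ ω : X →L[ℝ] X →L[ℝ] ℝ, Antisymmetric ω → Nonzero ω → AdmitsUmbel ω p) := by
  refine ⟨fun Z _ _ _ ω hanti => ⟨spans ω hanti, admits hp hX ω hanti⟩, fun ω hanti hω => ?_⟩
  refine admits hp hX ω hanti ?_
  obtain ⟨x, y, hxy⟩ := hω
  rw [eq_top_iff]
  intro r _
  have h1 : ω x y ∈ Submodule.span ℝ {z : ℝ | ∃ x y, ω x y = z} :=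
    Submodule.subset_span ⟨x, y, rfl⟩
  have h2 := Submodule.smul_mem _ (r / ω x y) h1
  rwa [smul_eq_mul, div_mul_cancel₀ _ hxy] at h2

end Pool.Agent.Results.MP_f1e800_an.StepTwoGroups
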